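import Mathlib

/-!
# Removing unit segments to destroy all grid squares

The least number `f n` of unit segments of the `n × n` board which meet the boundary of every
lattice square is `n²/2 + 1` for even `n`, `(n² + 3)/2` for odd `n ≥ 3`, and `1` for `n = 1`.

The horizontal unit segment from `(x, y)` to `(x + 1, y)` is encoded as `(false, x, y)`, the
vertical unit segment from `(x, y)` to `(x, y + 1)` as `(true, x, y)`.
-/

namespace Pool.Agent.Results.MP_5493ad_co.MinimumForAllN

open Finset

/-- The set `E_n` of all unit segments of the `n × n` board. -/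
def segs (n : ℕ) : Finset (Bool × ℕ × ℕ) :=
  ((univ : Finset Bool) ×ˢ range (n + 1) ×ˢ range (n + 1)).filter
    fun e => (e.1 = false ∧ e.2.1 < n) ∨ (e.1 = true ∧ e.2.2 < n)

/-- The `4k` unit segments of the boundary of the square `[a, a+k] × [b, b+k]`. -/
def boundary (a b k : ℕ) : Set (Bool × ℕ × ℕ) :=
  {e | (e.1 = false ∧ a ≤ e.2.1 ∧ e.2.1 < a + k ∧ (e.2.2 = b ∨ e.2.2 = b + k)) ∨
    (e.1 = true ∧ b ≤ e.2.2 ∧ e.2.2 < b + k ∧ (e.2.1 = a ∨ e.2.1 = a + k))}

/-- The set `R` destroys all squares of the `n × n` board. -/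
def Destroys (n : ℕ) (R : Finset (Bool × ℕ × ℕ)) : Prop :=
  ∀ a b k : ℕ, 1 ≤ k → a + k ≤ n → b + k ≤ n → ∃ e ∈ R, e ∈ boundary a b k

/-- The minimum size of a set of unit segments of the board which destroys all squares. -/
noncomputable def f (n : ℕ) : ℕ :=
  sInf {m | ∃ R : Finset (Bool × ℕ × ℕ), R ⊆ segs n ∧ Destroys n R ∧ R.card = m}

/-- The explicit value. -/
def value (n : ℕ) : ℕ := if n = 1 then 1 else if n % 2 = 0 then n ^ 2 / 2 + 1 else (n ^ 2 + 3) / 2

/-- The horizontal segments of the construction (`d = 1` for even `n`, `d = 0` for odd `n`). -/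
def HH (n x y : ℕ) : Prop :=
  (x ≤ y + (n + 1) % 2 ∧ x + y + 1 ≤ n ∧ (x + y + n) % 2 = 1) ∨
    (y + (n + 1) % 2 ≤ x + 1 ∧ n ≤ x + y ∧ (x + y + n) % 2 = 0)

/-- The vertical segments of the construction. -/
def VV (n x y : ℕ) : Prop :=
  (y + 3 + (n + 1) % 2 ≤ x ∧ x + y + 2 ≤ n ∧ (x + y + n) % 2 = 0) ∨
    (x + 2 ≤ y + (n + 1) % 2 ∧ n + 1 ≤ x + y ∧ (x + y + n) % 2 = 1)

instance (n x y : ℕ) : Decidable (HH n x y) := by unfold HH; infer_instance
instance (n x y : ℕ) : Decidable (VV n x y) := by unfold VV; infer_instance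

/-- The construction. -/
def opt (n : ℕ) : Finset (Bool × ℕ × ℕ) :=
  if n = 1 then {(false, 0, 0)} else
    (segs n).filter fun e => (e.1 = false ∧ HH n e.2.1 e.2.2) ∨ (e.1 = true ∧ VV n e.2.1 e.2.2)

lemma mem_segs_false {n x y : ℕ} : (false, x, y) ∈ segs n ↔ x < n ∧ y < n + 1 := by
  simp only [segs, mem_filter, mem_product, mem_univ, mem_range, true_and, Bool.false_eq_true,
    false_and, or_false]
  omega

lemma mem_segs_true {n x y : ℕ} : (true, x, y) ∈ segs n ↔ x < n + 1 ∧ y < n := by
  simp only [segs, mem_filter, mem_product, mem_univ, mem_range, true_and, Bool.true_eq_false,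
    false_and, false_or]
  omega

/-! ### Counting -/

/-- indicator of a segment -/
def ind (R : Finset (Bool × ℕ × ℕ)) (s : Bool) (x y : ℕ) : ℕ := if (s, x, y) ∈ R then 1 else 0

/-- the number of segments of `R` on the boundary of the cell `(x, y)` -/
def hits (R : Finset (Bool × ℕ × ℕ)) (x y : ℕ) : ℕ :=
  ind R false x y + ind R false x (y + 1) + (ind R true x y + ind R true (x + 1) y)

/-- the number of segments of `R` on the boundary of the board -/
def outer (n : ℕ) (R : Finset (Bool × ℕ × ℕ)) : ℕ :=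
  (∑ x ∈ range n, (ind R false x 0 + ind R false x n)) +
    ∑ y ∈ range n, (ind R true 0 y + ind R true n y)

lemma card_eq (n : ℕ) (R : Finset (Bool × ℕ × ℕ)) (hR : R ⊆ segs n) :
    R.card = (∑ x ∈ range n, ∑ y ∈ range (n + 1), ind R false x y) +
      ∑ y ∈ range n, ∑ x ∈ range (n + 1), ind R true x y := by
  classical
  have h1 : R = (((range n) ×ˢ (range (n + 1))).filter fun p => (false, p.1, p.2) ∈ R).map
        ⟨fun p => (false, p.1, p.2), fun p q h => by simpa [Prod.ext_iff] using h⟩ ∪
      (((range n) ×ˢ (range (n + 1))).filter fun p => (true, p.2, p.1) ∈ R).map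
        ⟨fun p => (true, p.2, p.1), fun p q h => by
          simp only [Prod.mk.injEq, true_and] at h
          exact Prod.ext h.2 h.1⟩ := by
    ext ⟨s, x, y⟩
    simp only [mem_union, mem_map, mem_filter, mem_product, mem_range, Prod.exists]
    constructor
    · intro h
      cases s
      · have := mem_segs_false.mp (hR h)
        exact Or.inl ⟨x, y, ⟨this, h⟩, rfl⟩
      · have := mem_segs_true.mp (hR h)
        exact Or.inr ⟨y, x, ⟨this.symm, h⟩, rfl⟩
    · rintro (⟨a, b, ⟨-, h⟩, he⟩ | ⟨a, b, ⟨-, h⟩, he⟩)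
      · change (false, a, b) = (s, x, y) at he
        rw [← he]
        exact h
      · change (true, b, a) = (s, x, y) at he
        rw [← he]
        exact h
  have hdisj : Disjoint
      ((((range n) ×ˢ (range (n + 1))).filter fun p => (false, p.1, p.2) ∈ R).map
        ⟨fun p => (false, p.1, p.2), fun p q h => by simpa [Prod.ext_iff] using h⟩)
      ((((range n) ×ˢ (range (n + 1))).filter fun p => (true, p.2, p.1) ∈ R).map
        ⟨fun p => (true, p.2, p.1), fun p q h => by
          simp only [Prod.mk.injEq, true_and] at h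
          exact Prod.ext h.2 h.1⟩) := by
    rw [Finset.disjoint_left]
    rintro ⟨s, x, y⟩ ha hb
    simp only [mem_map, mem_filter, mem_product, mem_range, Prod.exists] at ha hb
    obtain ⟨a, b, -, h1⟩ := ha
    obtain ⟨c, d, -, h2⟩ := hb
    change (false, a, b) = (s, x, y) at h1
    change (true, d, c) = (s, x, y) at h2
    have h3 := congrArg Prod.fst (h1.trans h2.symm)
    simp at h3
  have h2 : R.card = (((range n) ×ˢ (range (n + 1))).filter fun p => (false, p.1, p.2) ∈ R).card +
      (((range n) ×ˢ (range (n + 1))).filter fun p => (true, p.2, p.1) ∈ R).card := by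
    conv_lhs => rw [h1]
    rw [card_union_of_disjoint hdisj, card_map, card_map]
  rw [h2, card_filter, card_filter, sum_product, sum_product]
  rfl

lemma count (n : ℕ) (R : Finset (Bool × ℕ × ℕ)) (hR : R ⊆ segs n) :
    (∑ x ∈ range n, ∑ y ∈ range n, hits R x y) + outer n R = 2 * R.card := by
  rw [card_eq n R hR]
  have e1 : ∀ x, ∑ y ∈ range n, ind R false x y + ind R false x n =
      ∑ y ∈ range (n + 1), ind R false x y := fun x => (sum_range_succ _ _).symm
  have e2 : ∀ x, ∑ y ∈ range n, ind R false x (y + 1) + ind R false x 0 =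
      ∑ y ∈ range (n + 1), ind R false x y := fun x => (sum_range_succ' _ _).symm
  have e3 : ∀ y, ∑ x ∈ range n, ind R true x y + ind R true n y =
      ∑ x ∈ range (n + 1), ind R true x y := fun x => (sum_range_succ _ _).symm
  have e4 : ∀ y, ∑ x ∈ range n, ind R true (x + 1) y + ind R true 0 y =
      ∑ x ∈ range (n + 1), ind R true x y :=
    fun y => (sum_range_succ' (fun x => ind R true x y) _).symm
  have h1 : ∑ x ∈ range n, ∑ y ∈ range n, hits R x y =
      ∑ x ∈ range n, (∑ y ∈ range n, ind R false x y + ∑ y ∈ range n, ind R false x (y + 1)) +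
      ∑ y ∈ range n, (∑ x ∈ range n, ind R true x y + ∑ x ∈ range n, ind R true (x + 1) y) := by
    simp only [hits, sum_add_distrib]
    rw [sum_comm (f := fun x y => ind R true x y), sum_comm (f := fun x y => ind R true (x + 1) y)]
  rw [h1, outer, two_mul]
  have h2 : ∑ x ∈ range n, (∑ y ∈ range n, ind R false x y + ∑ y ∈ range n, ind R false x (y + 1)) +
      ∑ x ∈ range n, (ind R false x 0 + ind R false x n) =
      ∑ x ∈ range n, ∑ y ∈ range (n + 1), ind R false x y +
        ∑ x ∈ range n, ∑ y ∈ range (n + 1), ind R false x y := by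
    rw [← sum_add_distrib, ← sum_add_distrib]
    refine sum_congr rfl fun x _ => ?_
    have a1 := e1 x
    have a2 := e2 x
    omega
  have h3 : ∑ y ∈ range n, (∑ x ∈ range n, ind R true x y + ∑ x ∈ range n, ind R true (x + 1) y) +
      ∑ y ∈ range n, (ind R true 0 y + ind R true n y) =
      ∑ y ∈ range n, ∑ x ∈ range (n + 1), ind R true x y +
        ∑ y ∈ range n, ∑ x ∈ range (n + 1), ind R true x y := by
    rw [← sum_add_distrib, ← sum_add_distrib]
    refine sum_congr rfl fun x _ => ?_
    have a1 := e3 x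
    have a2 := e4 x
    omega
  omega

/-! ### The construction -/

lemma opt_sub (n : ℕ) (hn : 1 ≤ n) : opt n ⊆ segs n := by
  unfold opt
  split_ifs with h
  · subst h
    intro e he
    rw [mem_singleton] at he
    subst he
    exact mem_segs_false.mpr (by omega)
  · exact filter_subset _ _

lemma opt_false {n x y : ℕ} (hn : n ≠ 1) :
    (false, x, y) ∈ opt n ↔ (x < n ∧ y < n + 1) ∧ HH n x y := by
  rw [opt, if_neg hn, mem_filter, mem_segs_false]
  simp

lemma opt_true {n x y : ℕ} (hn : n ≠ 1) :
    (true, x, y) ∈ opt n ↔ (x < n + 1 ∧ y < n) ∧ VV n x y := by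
  rw [opt, if_neg hn, mem_filter, mem_segs_true]
  simp

lemma bd_bottom {a b k x : ℕ} (h1 : a ≤ x) (h2 : x < a + k) : (false, x, b) ∈ boundary a b k :=
  Or.inl ⟨rfl, h1, h2, Or.inl rfl⟩

lemma bd_top {a b k x : ℕ} (h1 : a ≤ x) (h2 : x < a + k) : (false, x, b + k) ∈ boundary a b k :=
  Or.inl ⟨rfl, h1, h2, Or.inr rfl⟩

lemma bd_left {a b k y : ℕ} (h1 : b ≤ y) (h2 : y < b + k) : (true, a, y) ∈ boundary a b k :=
  Or.inr ⟨rfl, h1, h2, Or.inl rfl⟩

lemma bd_right {a b k y : ℕ} (h1 : b ≤ y) (h2 : y < b + k) : (true, a + k, y) ∈ boundary a b k :=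
  Or.inr ⟨rfl, h1, h2, Or.inr rfl⟩

/-- a horizontal line which is not hit -/
lemma lineH {n a k s : ℕ} (hk : 2 ≤ k) (ha : a + k ≤ n)
    (h : ∀ x, a ≤ x → x < a + k → ¬ HH n x s) :
    ¬ (a ≤ s + (n + 1) % 2 ∧ a + s + 1 ≤ n) ∧ ¬ (s + (n + 1) % 2 ≤ a + k ∧ n + 1 ≤ a + k + s) := by
  constructor
  · rintro ⟨h1, h2⟩
    have c1 := h a (by omega) (by omega)
    have c2 := h (a + 1) (by omega) (by omega)
    have c3 := h (s + (n + 1) % 2)
    have c4 := h (n - 1 - s)
    unfold HH at c1 c2 c3 c4
    omega
  · rintro ⟨h1, h2⟩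
    have c1 := h (a + k - 1) (by omega) (by omega)
    have c2 := h (a + k - 2) (by omega) (by omega)
    have c3 := h (s + (n + 1) % 2 - 1)
    have c4 := h (n - s)
    unfold HH at c1 c2 c3 c4
    omega

/-- a vertical line which is not hit -/
lemma lineV {n b k t : ℕ} (hk : 2 ≤ k) (hb : b + k ≤ n)
    (h : ∀ y, b ≤ y → y < b + k → ¬ VV n t y) :
    ¬ (b + 3 + (n + 1) % 2 ≤ t ∧ b + t + 2 ≤ n) ∧
      ¬ (t + 3 ≤ b + k + (n + 1) % 2 ∧ n + 2 ≤ t + b + k) := by
  constructor
  · rintro ⟨h1, h2⟩
    have c1 := h b (by omega) (by omega)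
    have c2 := h (b + 1) (by omega) (by omega)
    have c3 := h (t - 3 - (n + 1) % 2)
    have c4 := h (n - 2 - t)
    unfold VV at c1 c2 c3 c4
    omega
  · rintro ⟨h1, h2⟩
    have c1 := h (b + k - 1) (by omega) (by omega)
    have c2 := h (b + k - 2) (by omega) (by omega)
    have c3 := h (t + 2 - (n + 1) % 2)
    have c4 := h (n + 1 - t)
    unfold VV at c1 c2 c3 c4
    omega

lemma opt_destroys (n : ℕ) (hn : 1 ≤ n) : Destroys n (opt n) := by
  intro a b k hk ha hb
  by_cases h1 : n = 1
  · subst h1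
    have : a = 0 ∧ b = 0 ∧ k = 1 := by omega
    obtain ⟨rfl, rfl, rfl⟩ := this
    exact ⟨(false, 0, 0), by simp [opt], bd_bottom (by omega) (by omega)⟩
  · by_contra hcon
    push Not at hcon
    have e1 : ∀ x, a ≤ x → x < a + k → ¬ HH n x b := fun x hx hx' hh =>
      hcon _ ((opt_false h1).mpr ⟨⟨by omega, by omega⟩, hh⟩) (bd_bottom hx hx')
    have e2 : ∀ x, a ≤ x → x < a + k → ¬ HH n x (b + k) := fun x hx hx' hh =>
      hcon _ ((opt_false h1).mpr ⟨⟨by omega, by omega⟩, hh⟩) (bd_top hx hx')
    have e3 : ∀ y, b ≤ y → y < b + k → ¬ VV n a y := fun x hx hx' hh =>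
      hcon _ ((opt_true h1).mpr ⟨⟨by omega, by omega⟩, hh⟩) (bd_left hx hx')
    have e4 : ∀ y, b ≤ y → y < b + k → ¬ VV n (a + k) y := fun x hx hx' hh =>
      hcon _ ((opt_true h1).mpr ⟨⟨by omega, by omega⟩, hh⟩) (bd_right hx hx')
    rcases Nat.lt_or_ge k 2 with h2 | h2
    · obtain rfl : k = 1 := by omega
      have c1 := e1 a (by omega) (by omega)
      have c2 := e2 a (by omega) (by omega)
      have c3 := e3 b (by omega) (by omega)
      have c4 := e4 b (by omega) (by omega)
      unfold HH at c1 c2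
      unfold VV at c3 c4
      omega
    · have c1 := lineH h2 ha e1
      have c2 := lineH h2 ha e2
      have c3 := lineV h2 hb e3
      have c4 := lineV h2 hb e4
      omega

lemma opt_hits {n : ℕ} (h1 : n ≠ 1) {x y : ℕ} (hx : x < n) (hy : y < n) :
    hits (opt n) x y ≤ 1 + if x = n / 2 ∧ y = (n - 1) / 2 then 1 else 0 := by
  have i1 : ind (opt n) false x y = if HH n x y then 1 else 0 := by
    unfold ind
    refine if_congr ?_ rfl rfl
    rw [opt_false h1]
    exact ⟨fun h => h.2, fun h => ⟨⟨by omega, by omega⟩, h⟩⟩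
  have i2 : ind (opt n) false x (y + 1) = if HH n x (y + 1) then 1 else 0 := by
    unfold ind
    refine if_congr ?_ rfl rfl
    rw [opt_false h1]
    exact ⟨fun h => h.2, fun h => ⟨⟨by omega, by omega⟩, h⟩⟩
  have i3 : ind (opt n) true x y = if VV n x y then 1 else 0 := by
    unfold ind
    refine if_congr ?_ rfl rfl
    rw [opt_true h1]
    exact ⟨fun h => h.2, fun h => ⟨⟨by omega, by omega⟩, h⟩⟩
  have i4 : ind (opt n) true (x + 1) y = if VV n (x + 1) y then 1 else 0 := by
    unfold ind
    refine if_congr ?_ rfl rfl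
    rw [opt_true h1]
    exact ⟨fun h => h.2, fun h => ⟨⟨by omega, by omega⟩, h⟩⟩
  rw [hits, i1, i2, i3, i4]
  split_ifs with c1 c2 c3 c4 c5 c5 c4 c5 c5 c3 c4 c5 c5 c4 c5 c5 c2 c3 c4 c5 c5 c4 c5 c5 c3 c4 c5 c5
    c4 c5 c5
  all_goals first
    | omega
    | (unfold HH VV at *; omega)

lemma sum_hits_le {n : ℕ} (h1 : n ≠ 1) :
    ∑ x ∈ range n, ∑ y ∈ range n, hits (opt n) x y ≤ n ^ 2 + 1 := by
  calc ∑ x ∈ range n, ∑ y ∈ range n, hits (opt n) x y
      ≤ ∑ x ∈ range n, ∑ y ∈ range n, (1 + if x = n / 2 ∧ y = (n - 1) / 2 then 1 else 0) :=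
        sum_le_sum fun x hx => sum_le_sum fun y hy =>
          opt_hits h1 (mem_range.mp hx) (mem_range.mp hy)
    _ = n ^ 2 + ∑ x ∈ range n, ∑ y ∈ range n, (if x = n / 2 ∧ y = (n - 1) / 2 then 1 else 0) := by
        simp only [sum_add_distrib, sum_const, card_range, smul_eq_mul, mul_one]
        ring
    _ ≤ n ^ 2 + 1 := by
        have : ∀ x y : ℕ, (if x = n / 2 ∧ y = (n - 1) / 2 then 1 else 0) =
            if x = n / 2 then (if y = (n - 1) / 2 then 1 else 0) else 0 := by
          intro x y
          split_ifs <;> first | rfl | omega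
        simp only [this]
        have h2 : ∀ x, ∑ y ∈ range n, (if x = n / 2 then (if y = (n - 1) / 2 then 1 else 0) else 0)
            ≤ if x = n / 2 then 1 else 0 := by
          intro x
          split_ifs
          · rw [sum_ite_eq']
            split_ifs <;> omega
          · simp
        have h3 : ∑ x ∈ range n, ∑ y ∈ range n,
            (if x = n / 2 then (if y = (n - 1) / 2 then 1 else 0) else 0) ≤
            ∑ x ∈ range n, if x = n / 2 then 1 else 0 := sum_le_sum fun x _ => h2 x
        have h4 : (∑ x ∈ range n, if x = n / 2 then 1 else 0) ≤ 1 := by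
          rw [sum_ite_eq']
          split_ifs <;> omega
        omega

lemma outer_le {n : ℕ} (h1 : n ≠ 1) : outer n (opt n) ≤ 1 + n % 2 := by
  have i1 : ∀ x ∈ range n, ind (opt n) false x 0 = if x = (n + 1) % 2 then 1 else 0 := by
    intro x hx
    rw [mem_range] at hx
    unfold ind
    refine if_congr ?_ rfl rfl
    rw [opt_false h1]
    unfold HH
    omega
  have i2 : ∀ x ∈ range n, ind (opt n) false x n = if x = n - 1 then n % 2 else 0 := by
    intro x hx
    rw [mem_range] at hx
    unfold ind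
    have : (false, x, n) ∈ opt n ↔ x = n - 1 ∧ n % 2 = 1 := by
      rw [opt_false h1]
      unfold HH
      omega
    simp only [this]
    split_ifs <;> omega
  have i3 : ∀ y ∈ range n, ind (opt n) true 0 y + ind (opt n) true n y = 0 := by
    intro y hy
    rw [mem_range] at hy
    have e1 : (true, 0, y) ∉ opt n := by
      rw [opt_true h1]
      unfold VV
      omega
    have e2 : (true, n, y) ∉ opt n := by
      rw [opt_true h1]
      unfold VV
      omega
    simp [ind, e1, e2]
  rw [outer, sum_add_distrib, sum_congr rfl i1, sum_congr rfl i2, sum_congr rfl i3, sum_ite_eq',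
    sum_ite_eq']
  simp only [sum_const_zero]
  split_ifs <;> omega

/-- cardinality of the construction, upper bound -/
lemma opt_card_le {n : ℕ} (hn : 1 ≤ n) : (opt n).card ≤ value n := by
  by_cases h1 : n = 1
  · subst h1
    decide
  · have e1 := count n (opt n) (opt_sub n hn)
    have e2 := sum_hits_le h1
    have e3 := outer_le h1
    unfold value
    rw [if_neg h1]
    split_ifs with h2 <;> omega

/-! ### The lower bound -/

lemma sum_pos_of {n : ℕ} {g : ℕ → ℕ} {x : ℕ} (hx : x < n) (h : 1 ≤ g x) :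
    1 ≤ ∑ x ∈ range n, g x :=
  h.trans (single_le_sum (f := g) (fun _ _ => Nat.zero_le _) (mem_range.mpr hx))

lemma ind_eq_one {R : Finset (Bool × ℕ × ℕ)} {s : Bool} {x y : ℕ} (h : (s, x, y) ∈ R) :
    ind R s x y = 1 := if_pos h

lemma hits_pos {n : ℕ} {R : Finset (Bool × ℕ × ℕ)} (hd : Destroys n R) {x y : ℕ} (hx : x < n)
    (hy : y < n) : 1 ≤ hits R x y := by
  obtain ⟨⟨s, u, v⟩, he, hb⟩ := hd x y 1 le_rfl (by omega) (by omega)
  rcases hb with ⟨h1, h2, h3, h4⟩ | ⟨h1, h2, h3, h4⟩
  · simp only at h1 h2 h3 h4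
    subst h1
    obtain rfl : u = x := by omega
    rcases h4 with rfl | rfl
    · have := ind_eq_one he
      unfold hits
      omega
    · have := ind_eq_one he
      unfold hits
      omega
  · simp only at h1 h2 h3 h4
    subst h1
    obtain rfl : v = y := by omega
    rcases h4 with rfl | rfl
    · have := ind_eq_one he
      unfold hits
      omega
    · have := ind_eq_one he
      unfold hits
      omega

lemma outer_pos {n : ℕ} (hn : 1 ≤ n) {R : Finset (Bool × ℕ × ℕ)} (hd : Destroys n R) :
    1 ≤ outer n R := by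
  obtain ⟨⟨s, u, v⟩, he, hb⟩ := hd 0 0 n hn (by omega) (by omega)
  rcases hb with ⟨h1, h2, h3, h4⟩ | ⟨h1, h2, h3, h4⟩
  · simp only [Nat.zero_add] at h1 h2 h3 h4
    subst h1
    have h5 : 1 ≤ ind R false u 0 + ind R false u n := by
      rcases h4 with rfl | rfl
      · have := ind_eq_one he
        omega
      · have := ind_eq_one he
        omega
    have := sum_pos_of (g := fun x => ind R false x 0 + ind R false x n) h3 h5
    unfold outer
    omega
  · simp only [Nat.zero_add] at h1 h2 h3 h4
    subst h1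
    have h5 : 1 ≤ ind R true 0 v + ind R true n v := by
      rcases h4 with rfl | rfl
      · have := ind_eq_one he
        omega
      · have := ind_eq_one he
        omega
    have := sum_pos_of (g := fun y => ind R true 0 y + ind R true n y) h3 h5
    unfold outer
    omega

lemma sum_hits_ge {n : ℕ} {R : Finset (Bool × ℕ × ℕ)} (hd : Destroys n R) :
    n ^ 2 ≤ ∑ x ∈ range n, ∑ y ∈ range n, hits R x y := by
  calc n ^ 2 = ∑ x ∈ range n, ∑ y ∈ range n, 1 := by simp [sq]
    _ ≤ _ := sum_le_sum fun x hx => sum_le_sum fun y hy =>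
        hits_pos hd (mem_range.mp hx) (mem_range.mp hy)

/-- The staircase argument.  `H x y` and `V x y` say that the horizontal (vertical) segment which
starts at `(x, y)` is in the set. -/
lemma stair {n : ℕ} (hn : 3 ≤ n) (H V : ℕ → ℕ → Prop)
    (cell : ∀ x y, x < n → y < n → H x y ∨ H x (y + 1) ∨ V x y ∨ V (x + 1) y)
    (u1 : ∀ x y, x < n → y < n → H x y → H x (y + 1) → False)
    (u2 : ∀ x y, x < n → y < n → H x y → V x y → False)
    (u3 : ∀ x y, x < n → y < n → H x y → V (x + 1) y → False)
    (u4 : ∀ x y, x < n → y < n → H x (y + 1) → V x y → False)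
    (u5 : ∀ x y, x < n → y < n → H x (y + 1) → V (x + 1) y → False)
    (u6 : ∀ x y, x < n → y < n → V x y → V (x + 1) y → False)
    (two : ∀ a b, a + 2 ≤ n → b + 2 ≤ n →
      H a b ∨ H (a + 1) b ∨ H a (b + 1 + 1) ∨ H (a + 1) (b + 1 + 1) ∨
      V a b ∨ V a (b + 1) ∨ V (a + 1 + 1) b ∨ V (a + 1 + 1) (b + 1))
    (near : ¬ V 0 1) (far1 : H (n - 2) n → H (n - 1) n → False)
    (far2 : H (n - 2) n → V n (n - 1) → False) (start : V 1 0) : False := by
  have hblock : ∀ a b, a + 2 ≤ n → b + 2 ≤ n → V (a + 1) b → V (a + 1) (b + 1) → False := by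
    intro a b ha hb h1 h2
    rcases two a b ha hb with h | h | h | h | h | h | h | h
    · exact u3 a b (by omega) (by omega) h h1
    · exact u2 (a + 1) b (by omega) (by omega) h h1
    · exact u5 a (b + 1) (by omega) (by omega) h h2
    · exact u4 (a + 1) (b + 1) (by omega) (by omega) h h2
    · exact u6 a b (by omega) (by omega) h h1
    · exact u6 a (b + 1) (by omega) (by omega) h h2
    · exact u6 (a + 1) b (by omega) (by omega) h1 h
    · exact u6 (a + 1) (b + 1) (by omega) (by omega) h2 h
  have vblock : ∀ a b, a + 2 ≤ n → b + 2 ≤ n → H a (b + 1) → H (a + 1) (b + 1) → False := by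
    intro a b ha hb h1 h2
    rcases two a b ha hb with h | h | h | h | h | h | h | h
    · exact u1 a b (by omega) (by omega) h h1
    · exact u1 (a + 1) b (by omega) (by omega) h h2
    · exact u1 a (b + 1) (by omega) (by omega) h1 h
    · exact u1 (a + 1) (b + 1) (by omega) (by omega) h2 h
    · exact u4 a b (by omega) (by omega) h1 h
    · exact u2 a (b + 1) (by omega) (by omega) h1 h
    · exact u5 (a + 1) b (by omega) (by omega) h2 h
    · exact u3 (a + 1) (b + 1) (by omega) (by omega) h2 h
  -- the forced staircase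
  have key : ∀ i, i + 2 ≤ n → V (i + 1) i ∧ H i (i + 1 + 1) := by
    intro i
    induction i with
    | zero =>
      intro _
      refine ⟨start, ?_⟩
      rcases cell 0 1 (by omega) (by omega) with h | h | h | h
      · exact (u5 0 0 (by omega) (by omega) h start).elim
      · exact h
      · exact (near h).elim
      · exact (hblock 0 0 (by omega) (by omega) start h).elim
    | succ i ih =>
      intro hi
      obtain ⟨h1, h2⟩ := ih (by omega)
      have hV : V (i + 1 + 1) (i + 1) := by
        rcases cell (i + 1) (i + 1) (by omega) (by omega) with h | h | h | h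
        · exact (u4 (i + 1) i (by omega) (by omega) h h1).elim
        · exact (vblock i (i + 1) (by omega) (by omega) h2 h).elim
        · exact (u5 i (i + 1) (by omega) (by omega) h2 h).elim
        · exact h
      refine ⟨hV, ?_⟩
      rcases cell (i + 1) (i + 1 + 1) (by omega) (by omega) with h | h | h | h
      · exact (u5 (i + 1) (i + 1) (by omega) (by omega) h hV).elim
      · exact h
      · exact (u3 i (i + 1 + 1) (by omega) (by omega) h2 h).elim
      · exact (hblock (i + 1) (i + 1) (by omega) (by omega) hV h).elim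
  obtain ⟨m, rfl⟩ : ∃ m, n = m + 1 + 1 := ⟨n - 2, by omega⟩
  obtain ⟨h1, h2⟩ := key m (by omega)
  have e1 : m + 1 + 1 - 2 = m := by omega
  have e2 : m + 1 + 1 - 1 = m + 1 := by omega
  rw [e1, e2] at far1
  rw [e1, e2] at far2
  rcases cell (m + 1) (m + 1) (by omega) (by omega) with h | h | h | h
  · exact u4 (m + 1) m (by omega) (by omega) h h1
  · exact far1 h2 h
  · exact u5 m (m + 1) (by omega) (by omega) h2 h
  · exact far2 h2 h

/-- The staircase argument from the corner `(0, 0)`, in both orientations. -/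
lemma corner {n : ℕ} (hn : 3 ≤ n) (H V : ℕ → ℕ → Prop)
    (cell : ∀ x y, x < n → y < n → H x y ∨ H x (y + 1) ∨ V x y ∨ V (x + 1) y)
    (u1 : ∀ x y, x < n → y < n → H x y → H x (y + 1) → False)
    (u2 : ∀ x y, x < n → y < n → H x y → V x y → False)
    (u3 : ∀ x y, x < n → y < n → H x y → V (x + 1) y → False)
    (u4 : ∀ x y, x < n → y < n → H x (y + 1) → V x y → False)
    (u5 : ∀ x y, x < n → y < n → H x (y + 1) → V (x + 1) y → False)
    (u6 : ∀ x y, x < n → y < n → V x y → V (x + 1) y → False)
    (two : ∀ a b, a + 2 ≤ n → b + 2 ≤ n →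
      H a b ∨ H (a + 1) b ∨ H a (b + 1 + 1) ∨ H (a + 1) (b + 1 + 1) ∨
      V a b ∨ V a (b + 1) ∨ V (a + 1 + 1) b ∨ V (a + 1 + 1) (b + 1))
    (n1 : ¬ H 0 0) (n2 : ¬ V 0 0) (n3 : ¬ V 0 1) (n4 : ¬ H 1 0)
    (f1 : H (n - 2) n → H (n - 1) n → False) (f2 : H (n - 2) n → V n (n - 1) → False)
    (f3 : V n (n - 2) → V n (n - 1) → False) (f4 : V n (n - 2) → H (n - 1) n → False) :
    False := by
  rcases cell 0 0 (by omega) (by omega) with h | h | h | h
  · exact n1 h
  · refine stair hn (fun x y => V y x) (fun x y => H y x) ?_ (fun x y hx hy => u6 y x hy hx)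
      (fun x y hx hy a b => u2 y x hy hx b a) (fun x y hx hy a b => u4 y x hy hx b a)
      (fun x y hx hy a b => u3 y x hy hx b a) (fun x y hx hy a b => u5 y x hy hx b a)
      (fun x y hx hy => u1 y x hy hx) ?_ n4 f3 f4 h
    · intro x y hx hy
      rcases cell y x hy hx with h | h | h | h
      · exact Or.inr (Or.inr (Or.inl h))
      · exact Or.inr (Or.inr (Or.inr h))
      · exact Or.inl h
      · exact Or.inr (Or.inl h)
    · intro a b ha hb
      rcases two b a hb ha with h | h | h | h | h | h | h | h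
      · exact Or.inr (Or.inr (Or.inr (Or.inr (Or.inl h))))
      · exact Or.inr (Or.inr (Or.inr (Or.inr (Or.inr (Or.inl h)))))
      · exact Or.inr (Or.inr (Or.inr (Or.inr (Or.inr (Or.inr (Or.inl h))))))
      · exact Or.inr (Or.inr (Or.inr (Or.inr (Or.inr (Or.inr (Or.inr h))))))
      · exact Or.inl h
      · exact Or.inr (Or.inl h)
      · exact Or.inr (Or.inr (Or.inl h))
      · exact Or.inr (Or.inr (Or.inr (Or.inl h)))
  · exact n2 h
  · exact stair hn H V cell u1 u2 u3 u4 u5 u6 two n3 f1 f2 h

lemma two_le {n : ℕ} (g : ℕ → ℕ) {i j : ℕ} (hij : i ≠ j) (hi : i < n) (hj : j < n) :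
    g i + g j ≤ ∑ x ∈ range n, g x := by
  rw [← sum_pair hij]
  refine sum_le_sum_of_subset ?_
  intro x hx
  rw [mem_insert, mem_singleton] at hx
  rw [mem_range]
  rcases hx with rfl | rfl <;> assumption

/-- For odd `n ≥ 3` the trivial bound is not attained. -/
lemma not_tight {n : ℕ} (hn : 3 ≤ n) {R : Finset (Bool × ℕ × ℕ)} (hR : R ⊆ segs n)
    (hd : Destroys n R) : 2 * R.card ≠ n ^ 2 + 1 := by
  intro hcard
  have e1 := count n R hR
  have e2 := sum_hits_ge hd
  have e3 := outer_pos (by omega) hd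
  have hout : outer n R = 1 := by omega
  have hsum : ∑ x ∈ range n, ∑ y ∈ range n, hits R x y = n ^ 2 := by omega
  -- every cell is hit exactly once
  have hone : ∀ x y, x < n → y < n → hits R x y = 1 := by
    by_contra hcon
    push Not at hcon
    obtain ⟨x, y, hx, hy, hxy⟩ := hcon
    have h2 : 1 < hits R x y := lt_of_le_of_ne (hits_pos hd hx hy) (Ne.symm hxy)
    have h3 : ∑ y ∈ range n, 1 < ∑ y ∈ range n, hits R x y :=
      sum_lt_sum (fun y hy => hits_pos hd hx (mem_range.mp hy)) ⟨y, mem_range.mpr hy, h2⟩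
    have h4 : ∑ x ∈ range n, ∑ y ∈ range n, 1 < ∑ x ∈ range n, ∑ y ∈ range n, hits R x y :=
      sum_lt_sum (fun x hx => sum_le_sum fun y hy => hits_pos hd (mem_range.mp hx)
        (mem_range.mp hy)) ⟨x, mem_range.mpr hx, h3⟩
    rw [hsum] at h4
    simp [sq] at h4
  -- the eight segments near the corners
  have h8 : ind R false 0 0 + ind R false 1 0 + (ind R false (n - 2) n + ind R false (n - 1) n) +
      (ind R true 0 0 + ind R true 0 1 + (ind R true n (n - 2) + ind R true n (n - 1))) ≤ 1 := by
    have hout' := hout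
    rw [outer, sum_add_distrib, sum_add_distrib] at hout'
    have a1 := two_le (n := n) (fun x => ind R false x 0) (i := 0) (j := 1) (by omega) (by omega)
      (by omega)
    have a2 := two_le (n := n) (fun x => ind R false x n) (i := n - 2) (j := n - 1) (by omega)
      (by omega) (by omega)
    have a3 := two_le (n := n) (fun y => ind R true 0 y) (i := 0) (j := 1) (by omega) (by omega)
      (by omega)
    have a4 := two_le (n := n) (fun y => ind R true n y) (i := n - 2) (j := n - 1) (by omega)
      (by omega) (by omega)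
    omega
  have cell : ∀ x y, x < n → y < n → (false, x, y) ∈ R ∨ (false, x, y + 1) ∈ R ∨
      (true, x, y) ∈ R ∨ (true, x + 1, y) ∈ R := by
    intro x y hx hy
    by_contra hcon
    push Not at hcon
    obtain ⟨c1, c2, c3, c4⟩ := hcon
    have := hone x y hx hy
    simp [hits, ind, c1, c2, c3, c4] at this
  have two : ∀ a b, a + 2 ≤ n → b + 2 ≤ n →
      (false, a, b) ∈ R ∨ (false, a + 1, b) ∈ R ∨ (false, a, b + 1 + 1) ∈ R ∨
      (false, a + 1, b + 1 + 1) ∈ R ∨ (true, a, b) ∈ R ∨ (true, a, b + 1) ∈ R ∨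
      (true, a + 1 + 1, b) ∈ R ∨ (true, a + 1 + 1, b + 1) ∈ R := by
    intro a b ha hb
    obtain ⟨⟨s, u, v⟩, he, hbd⟩ := hd a b 2 (by omega) ha hb
    rcases hbd with ⟨h1, h2, h3, h4⟩ | ⟨h1, h2, h3, h4⟩
    · simp only at h1 h2 h3 h4
      subst h1
      obtain rfl | rfl : u = a ∨ u = a + 1 := by omega
      · rcases h4 with rfl | rfl
        · exact Or.inl he
        · exact Or.inr (Or.inr (Or.inl he))
      · rcases h4 with rfl | rfl
        · exact Or.inr (Or.inl he)
        · exact Or.inr (Or.inr (Or.inr (Or.inl he)))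
    · simp only at h1 h2 h3 h4
      subst h1
      obtain rfl | rfl : v = b ∨ v = b + 1 := by omega
      · rcases h4 with rfl | rfl
        · exact Or.inr (Or.inr (Or.inr (Or.inr (Or.inl he))))
        · exact Or.inr (Or.inr (Or.inr (Or.inr (Or.inr (Or.inr (Or.inl he))))))
      · rcases h4 with rfl | rfl
        · exact Or.inr (Or.inr (Or.inr (Or.inr (Or.inr (Or.inl he)))))
        · exact Or.inr (Or.inr (Or.inr (Or.inr (Or.inr (Or.inr (Or.inr he))))))
  have u1 : ∀ x y, x < n → y < n → (false, x, y) ∈ R → (false, x, y + 1) ∈ R → False := by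
    intro x y hx hy a b
    have := hone x y hx hy
    rw [hits, ind_eq_one a, ind_eq_one b] at this
    omega
  have u2 : ∀ x y, x < n → y < n → (false, x, y) ∈ R → (true, x, y) ∈ R → False := by
    intro x y hx hy a b
    have := hone x y hx hy
    rw [hits, ind_eq_one a, ind_eq_one b] at this
    omega
  have u3 : ∀ x y, x < n → y < n → (false, x, y) ∈ R → (true, x + 1, y) ∈ R → False := by
    intro x y hx hy a b
    have := hone x y hx hy
    rw [hits, ind_eq_one a, ind_eq_one b] at this
    omega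
  have u4 : ∀ x y, x < n → y < n → (false, x, y + 1) ∈ R → (true, x, y) ∈ R → False := by
    intro x y hx hy a b
    have := hone x y hx hy
    rw [hits, ind_eq_one a, ind_eq_one b] at this
    omega
  have u5 : ∀ x y, x < n → y < n → (false, x, y + 1) ∈ R → (true, x + 1, y) ∈ R → False := by
    intro x y hx hy a b
    have := hone x y hx hy
    rw [hits, ind_eq_one a, ind_eq_one b] at this
    omega
  have u6 : ∀ x y, x < n → y < n → (true, x, y) ∈ R → (true, x + 1, y) ∈ R → False := by
    intro x y hx hy a b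
    have := hone x y hx hy
    rw [hits, ind_eq_one a, ind_eq_one b] at this
    omega
  by_cases hB : (false, 0, 0) ∈ R ∨ (true, 0, 0) ∈ R ∨ (true, 0, 1) ∈ R ∨ (false, 1, 0) ∈ R
  · -- rotate by 180 degrees
    have hfar : (false, n - 2, n) ∉ R ∧ (false, n - 1, n) ∉ R ∧ (true, n, n - 2) ∉ R ∧
        (true, n, n - 1) ∉ R := by
      refine ⟨fun h => ?_, fun h => ?_, fun h => ?_, fun h => ?_⟩ <;> rw [ind_eq_one h] at h8 <;>
        rcases hB with h' | h' | h' | h' <;> rw [ind_eq_one h'] at h8 <;> omega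
    obtain ⟨g1, g2, g3, g4⟩ := hfar
    have k1 : ∀ z, z < n → n - (z + 1) = n - 1 - z := fun z hz => by omega
    have k2 : ∀ z, z < n → n - z = n - 1 - z + 1 := fun z hz => by omega
    refine corner hn (fun x y => (false, n - 1 - x, n - y) ∈ R)
      (fun x y => (true, n - x, n - 1 - y) ∈ R) ?_ ?_ ?_ ?_ ?_ ?_ ?_ ?_ ?_ ?_ ?_ ?_ ?_ ?_ ?_ ?_
    · intro x y hx hy
      have := cell (n - 1 - x) (n - 1 - y) (by omega) (by omega)
      rw [← k2 x hx, ← k2 y hy, ← k1 y hy] at this
      rw [k1 y hy] at this ⊢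
      rw [k1 x hx]
      rcases this with h | h | h | h
      · exact Or.inr (Or.inl h)
      · exact Or.inl h
      · exact Or.inr (Or.inr (Or.inr h))
      · exact Or.inr (Or.inr (Or.inl h))
    · intro x y hx hy a b
      rw [k2 y hy] at a
      rw [k1 y hy] at b
      exact u1 _ _ (by omega) (by omega) b a
    · intro x y hx hy a b
      rw [k2 y hy] at a
      rw [k2 x hx] at b
      exact u5 _ _ (by omega) (by omega) a b
    · intro x y hx hy a b
      rw [k2 y hy] at a
      rw [k1 x hx] at b
      exact u4 _ _ (by omega) (by omega) a b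
    · intro x y hx hy a b
      rw [k1 y hy] at a
      rw [k2 x hx] at b
      exact u3 _ _ (by omega) (by omega) a b
    · intro x y hx hy a b
      rw [k1 y hy] at a
      rw [k1 x hx] at b
      exact u2 _ _ (by omega) (by omega) a b
    · intro x y hx hy a b
      rw [k2 x hx] at a
      rw [k1 x hx] at b
      exact u6 _ _ (by omega) (by omega) b a
    · intro a b ha hb
      obtain ⟨A, hA⟩ : ∃ A, n = a + A + 2 := ⟨n - 2 - a, by omega⟩
      obtain ⟨B, hB⟩ : ∃ B, n = b + B + 2 := ⟨n - 2 - b, by omega⟩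
      have q1 : n - 1 - a = A + 1 := by omega
      have q2 : n - 1 - (a + 1) = A := by omega
      have q3 : n - a = A + 1 + 1 := by omega
      have q4 : n - (a + 1 + 1) = A := by omega
      have r1 : n - 1 - b = B + 1 := by omega
      have r2 : n - 1 - (b + 1) = B := by omega
      have r3 : n - b = B + 1 + 1 := by omega
      have r4 : n - (b + 1 + 1) = B := by omega
      rw [q1, q2, q3, q4, r1, r2, r3, r4]
      rcases two A B (by omega) (by omega) with h | h | h | h | h | h | h | h
      · exact Or.inr (Or.inr (Or.inr (Or.inl h)))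
      · exact Or.inr (Or.inr (Or.inl h))
      · exact Or.inr (Or.inl h)
      · exact Or.inl h
      · exact Or.inr (Or.inr (Or.inr (Or.inr (Or.inr (Or.inr (Or.inr h))))))
      · exact Or.inr (Or.inr (Or.inr (Or.inr (Or.inr (Or.inr (Or.inl h))))))
      · exact Or.inr (Or.inr (Or.inr (Or.inr (Or.inr (Or.inl h)))))
      · exact Or.inr (Or.inr (Or.inr (Or.inr (Or.inl h))))
    · exact g2
    · exact g4
    · exact g3
    · exact g1
    · intro a b
      rw [show n - 1 - (n - 2) = 1 by omega, show n - n = 0 by omega] at a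
      rw [show n - 1 - (n - 1) = 0 by omega, show n - n = 0 by omega] at b
      rw [ind_eq_one a, ind_eq_one b] at h8
      omega
    · intro a b
      rw [show n - 1 - (n - 2) = 1 by omega, show n - n = 0 by omega] at a
      rw [show n - 1 - (n - 1) = 0 by omega, show n - n = 0 by omega] at b
      rw [ind_eq_one a, ind_eq_one b] at h8
      omega
    · intro a b
      rw [show n - 1 - (n - 2) = 1 by omega, show n - n = 0 by omega] at a
      rw [show n - 1 - (n - 1) = 0 by omega, show n - n = 0 by omega] at b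
      rw [ind_eq_one a, ind_eq_one b] at h8
      omega
    · intro a b
      rw [show n - 1 - (n - 2) = 1 by omega, show n - n = 0 by omega] at a
      rw [show n - 1 - (n - 1) = 0 by omega, show n - n = 0 by omega] at b
      rw [ind_eq_one a, ind_eq_one b] at h8
      omega
  · push Not at hB
    obtain ⟨b1, b2, b3, b4⟩ := hB
    refine corner hn (fun x y => (false, x, y) ∈ R) (fun x y => (true, x, y) ∈ R) cell u1 u2 u3 u4
      u5 u6 two b1 b2 b3 b4 ?_ ?_ ?_ ?_
    all_goals
      intro a b
      rw [ind_eq_one a, ind_eq_one b] at h8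
      omega

lemma lower {n : ℕ} (hn : 1 ≤ n) {R : Finset (Bool × ℕ × ℕ)} (hR : R ⊆ segs n)
    (hd : Destroys n R) : value n ≤ R.card := by
  have e1 := count n R hR
  have e2 := sum_hits_ge hd
  have e3 := outer_pos hn hd
  unfold value
  split_ifs with h1 h2
  · subst h1
    omega
  · omega
  · have h3 : n % 2 = 1 := by omega
    have h4 := not_tight (by omega) hR hd
    have h5 : n ^ 2 % 2 = 1 := by
      rw [Nat.pow_mod, h3]
    omega

/-- For every `n ≥ 1` the minimum number `f n` of unit segments of the `n × n` board which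
destroy all squares is `1` if `n = 1`, `n²/2 + 1` if `n` is even, and `(n² + 3)/2` if `n ≥ 3` is
odd; and the explicit set `opt n` of unit segments of the board destroys all squares and has
exactly `f n` elements. -/
theorem result (n : ℕ) (hn : 1 ≤ n) :
    f n = (if n = 1 then 1 else if n % 2 = 0 then n ^ 2 / 2 + 1 else (n ^ 2 + 3) / 2) ∧
      opt n ⊆ segs n ∧ Destroys n (opt n) ∧ (opt n).card = f n := by
  have h1 : (opt n).card = value n :=
    le_antisymm (opt_card_le hn) (lower hn (opt_sub n hn) (opt_destroys n hn))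
  have hf : f n = value n := by
    apply le_antisymm
    · exact Nat.sInf_le ⟨opt n, opt_sub n hn, opt_destroys n hn, h1⟩
    · refine le_csInf ?_ ?_
      · exact ⟨value n, opt n, opt_sub n hn, opt_destroys n hn, h1⟩
      · rintro m ⟨R, hR, hd, rfl⟩
        exact lower hn hR hd
  exact ⟨hf, opt_sub n hn, opt_destroys n hn, by rw [h1, hf]⟩

end Pool.Agent.Results.MP_5493ad_co.MinimumForAllN
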